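import Mathlib
import Pool.Agent.W242.PellC

/-!
# Integral points that do not grow: quadratic fields and quartic CM fields

The scheme is the affine conic `(1 + 3x)² - D y² = 1` over the integers, `D` not a square.
-/

set_option autoImplicit false

open NumberField AlgebraicGeometry CategoryTheory

namespace Pool.Agent.Results.MP_14ad9d_nt.QuadraticAndQuarticCM

theorem result :
    -- one scheme which works for all imaginary quadratic fields at once
    (∃ (X : Scheme.{0}) (f : X ⟶ Spec (CommRingCat.of ℤ)),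
        IsAffine X ∧ LocallyOfFiniteType f ∧ QuasiCompact f ∧
        Infinite (Spec (CommRingCat.of ℤ) ⟶ X) ∧
        ∀ (K : Type) [Field K] [NumberField K], Module.finrank ℚ K = 2 → IsTotallyComplex K →
          Function.Bijective (fun g : Spec (CommRingCat.of ℤ) ⟶ X =>
            Spec.map (CommRingCat.ofHom (algebraMap ℤ (𝓞 K))) ≫ g)) ∧
    -- for every real quadratic field `F` one scheme which works for `F` and for all totally
    -- complex quadratic extensions of `F` at once
    (∀ (F : Type) [Field F] [NumberField F], Module.finrank ℚ F = 2 → IsTotallyReal F →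
      ∃ (X : Scheme.{0}) (f : X ⟶ Spec (CommRingCat.of ℤ)),
        IsAffine X ∧ LocallyOfFiniteType f ∧ QuasiCompact f ∧
        Infinite (Spec (CommRingCat.of ℤ) ⟶ X) ∧
        Function.Bijective (fun g : Spec (CommRingCat.of ℤ) ⟶ X =>
          Spec.map (CommRingCat.ofHom (algebraMap ℤ (𝓞 F))) ≫ g) ∧
        ∀ (K : Type) [Field K] [NumberField K] [Algebra F K], IsTotallyComplex K →
          Module.finrank F K = 2 →
          Function.Bijective (fun g : Spec (CommRingCat.of ℤ) ⟶ X =>
            Spec.map (CommRingCat.ofHom (algebraMap ℤ (𝓞 K))) ≫ g)) ∧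
    -- hence the question has a positive answer for all quadratic and all quartic CM fields
    (∀ (K : Type) [Field K] [NumberField K],
      (Module.finrank ℚ K = 2 ∨ (Module.finrank ℚ K = 4 ∧ IsCMField K)) →
      ∃ (X : Scheme.{0}) (f : X ⟶ Spec (CommRingCat.of ℤ)),
        IsAffine X ∧ LocallyOfFiniteType f ∧ QuasiCompact f ∧
        Infinite (Spec (CommRingCat.of ℤ) ⟶ X) ∧
        Function.Bijective (fun g : Spec (CommRingCat.of ℤ) ⟶ X =>
          Spec.map (CommRingCat.ofHom (algebraMap ℤ (𝓞 K))) ≫ g)) ∧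
    -- over an arbitrary CM field the points of the conic lie in the maximal real subfield
    (∀ (K : Type) [Field K] [NumberField K] [IsCMField K] (D : ℕ), 1 < D →
      ∀ x y : 𝓞 K, (1 + 3 * x) ^ 2 - (D : 𝓞 K) * y ^ 2 = 1 →
        (x : K) ∈ maximalRealSubfield K ∧ (y : K) ∈ maximalRealSubfield K) := by
  refine ⟨?_, ?_, ?_, ?_⟩
  · have h6 : ¬ IsSquare ((6 : ℕ) : ℤ) := by
      rintro ⟨k, hk⟩
      have h1 : k ≤ 2 := by by_contra hcon; push Not at hcon; push_cast at hk; nlinarith
      have h3 : -2 ≤ k := by by_contra hcon; push Not at hcon; push_cast at hk; nlinarith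
      interval_cases k <;> norm_num at hk
    obtain ⟨h1, h2, h3⟩ := Pool.Agent.W242.PellConic.scheme_basic 6 (by norm_num) h6
    refine ⟨_, _, inferInstance, h1, h2, h3, ?_⟩
    intro K _ _ hK hC
    exact Pool.Agent.W242.PellConic.scheme_bij K 6
      (fun x y h => Pool.Agent.W242.PellConic.imaginary_case hK 6 (by norm_num) x y h)
  · intro F _ _ hF hR
    obtain ⟨D, hD, hsq, hall, hext⟩ := Pool.Agent.W242.PellConic.uniform_real F hF
    obtain ⟨h1, h2, h3⟩ := Pool.Agent.W242.PellConic.scheme_basic D hD hsq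
    refine ⟨_, _, inferInstance, h1, h2, h3,
      Pool.Agent.W242.PellConic.scheme_bij F D hall, ?_⟩
    intro K _ _ _ hC hK
    exact Pool.Agent.W242.PellConic.scheme_bij K D (hext K hK)
  · intro K _ _ hK
    obtain ⟨D, hD, hsq, hall⟩ := Pool.Agent.W242.PellConic.exists_D K hK
    obtain ⟨h1, h2, h3⟩ := Pool.Agent.W242.PellConic.scheme_basic D hD hsq
    exact ⟨_, _, inferInstance, h1, h2, h3, Pool.Agent.W242.PellConic.scheme_bij K D hall⟩
  · intro K _ _ _ D hD x y h
    obtain ⟨hx, hy⟩ := Pool.Agent.W242.PellConic.cm_fixed D hD x y h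
    exact ⟨(IsCMField.complexConj_eq_self_iff K x).mp hx,
      (IsCMField.complexConj_eq_self_iff K y).mp hy⟩

end Pool.Agent.Results.MP_14ad9d_nt.QuadraticAndQuarticCM
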